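import Pool.Agent.W24.Katai

/-! # A one-sided form of the criterion of Daboussi and Kátai: sets of primes -/

set_option autoImplicit false

open Finset Filter Topology

namespace Pool.Agent.N805.CH

open Pool.Agent.W24.Katai (om SS SS_nonneg tk sum_dvd exists_SS mult_count)

/-- position of `p` in its dyadic block, one of `K` parts -/
def blk (K p : ℕ) : ℕ := K * (p - 2 ^ Nat.log 2 p) / 2 ^ Nat.log 2 p

/-- the left end of the part -/
noncomputable def yy (K i j : ℕ) : ℝ := 2 ^ j * (1 + (i : ℝ) / K)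

lemma yy_pos (K i j : ℕ) : 0 < yy K i j := by unfold yy; positivity

lemma yy_ge (K i j : ℕ) : (2 : ℝ) ^ j ≤ yy K i j := by
  unfold yy
  have : 0 ≤ (i : ℝ) / K := by positivity
  nlinarith [pow_pos (show (0 : ℝ) < 2 by norm_num) j]

lemma blk_lt {K p : ℕ} (hK : 1 ≤ K) (hp : 1 ≤ p) : blk K p < K := by
  unfold blk
  have h1 : 2 ^ Nat.log 2 p ≤ p := Nat.pow_log_le_self 2 (by omega)
  have h2 : p < 2 ^ (Nat.log 2 p + 1) := Nat.lt_pow_succ_log_self (by norm_num) p
  rw [pow_succ] at h2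
  rw [Nat.div_lt_iff_lt_mul (by positivity)]
  exact Nat.mul_lt_mul_of_pos_left (by omega) (by omega)

lemma blk_bd {K p : ℕ} (hK : 1 ≤ K) (hp : 1 ≤ p) :
    yy K (blk K p) (Nat.log 2 p) ≤ p ∧ (p : ℝ) ≤ (1 + 1 / K) * yy K (blk K p) (Nat.log 2 p) := by
  have hK0 : (0 : ℝ) < K := by exact_mod_cast hK
  obtain ⟨j, hj⟩ : ∃ j, j = Nat.log 2 p := ⟨_, rfl⟩
  obtain ⟨i, hi⟩ : ∃ i, i = blk K p := ⟨_, rfl⟩
  have h1 : 2 ^ j ≤ p := by rw [hj]; exact Nat.pow_log_le_self 2 (by omega)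
  have hi' : i = K * (p - 2 ^ j) / 2 ^ j := by rw [hi, hj]; rfl
  rw [← hj, ← hi]
  have h2 : i * 2 ^ j ≤ K * (p - 2 ^ j) := by rw [hi']; exact Nat.div_mul_le_self _ _
  have h3 : K * (p - 2 ^ j) < (i + 1) * 2 ^ j := by
    rw [hi', mul_comm (_ + 1)]
    exact Nat.lt_mul_div_succ _ (by positivity)
  have h4 : ((p - 2 ^ j : ℕ) : ℝ) = (p : ℝ) - 2 ^ j := by
    rw [Nat.cast_sub h1]; push_cast; ring
  have h2' : (i : ℝ) * 2 ^ j ≤ K * ((p : ℝ) - 2 ^ j) := by rw [← h4]; exact_mod_cast h2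
  have h3' : (K : ℝ) * ((p : ℝ) - 2 ^ j) ≤ (i + 1) * 2 ^ j := by rw [← h4]; exact_mod_cast h3.le
  have e1 : yy K i j = (K * 2 ^ j + i * 2 ^ j) / K := by unfold yy; field_simp
  constructor
  · rw [e1, div_le_iff₀ hK0]
    linarith
  · have h5 : (p : ℝ) ≤ yy K i j + 2 ^ j / K := by
      rw [e1, ← add_div, le_div_iff₀ hK0]
      linarith
    have h6 := yy_ge K i j
    have h7 : (2 : ℝ) ^ j / K ≤ yy K i j / K := div_le_div_of_nonneg_right h6 hK0.le
    have e2 : (1 + 1 / (K : ℝ)) * yy K i j = yy K i j + yy K i j / K := by ring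
    rw [e2]
    linarith

/-- many primes in one residue class and in one part of the dyadic blocks -/
theorem exists_P (A K P0 : ℕ) (hA : 1 ≤ A) (hK : 1 ≤ K) (T : ℝ) : ∃ (P : Finset ℕ) (r i : ℕ),
    (∀ p ∈ P, p.Prime ∧ P0 < p ∧ p % A = r ∧ blk K p = i) ∧ T ≤ SS P := by
  classical
  obtain ⟨T', hT'⟩ : ∃ T' : ℝ, T' = max T 0 := ⟨_, rfl⟩
  have hT0 : 0 ≤ T' := by rw [hT']; exact le_max_right _ _
  have hTT : T ≤ T' := by rw [hT']; exact le_max_left _ _
  obtain ⟨P', hP', hS⟩ := exists_SS ((P0 + 1) + (A * K) * (T' + 1))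
  obtain ⟨Q, hQ⟩ : ∃ Q : Finset ℕ, Q = P'.filter fun p => P0 < p := ⟨_, rfl⟩
  have h1 : (A * K : ℝ) * (T' + 1) ≤ SS Q := by
    have h2 : SS P' = SS Q + SS (P'.filter fun p => ¬ P0 < p) := by
      rw [hQ]
      unfold SS
      rw [Finset.sum_filter_add_sum_filter_not]
    have h3 : SS (P'.filter fun p => ¬ P0 < p) ≤ P0 + 1 := by
      unfold SS
      have h4 : ∀ p ∈ P'.filter (fun p => ¬ P0 < p), 1 / (p : ℝ) ≤ 1 := by
        intro p hp
        have := (hP' p (Finset.mem_filter.1 hp).1).one_lt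
        rw [div_le_one (by positivity)]
        exact_mod_cast this.le
      refine (Finset.sum_le_sum h4).trans ?_
      rw [Finset.sum_const, nsmul_eq_mul, mul_one]
      have h5 : (P'.filter fun p => ¬ P0 < p) ⊆ Finset.range (P0 + 1) := by
        intro p hp
        have := (Finset.mem_filter.1 hp).2
        rw [Finset.mem_range]; omega
      have h6 := Finset.card_le_card h5
      rw [Finset.card_range] at h6
      exact_mod_cast h6
    linarith
  by_contra hcon
  push Not at hcon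
  have hQp : ∀ p ∈ Q, p.Prime ∧ P0 < p := by
    intro p hp
    rw [hQ, Finset.mem_filter] at hp
    exact ⟨hP' p hp.1, hp.2⟩
  have hmaps : ∀ p ∈ Q, (p % A, blk K p) ∈ Finset.range A ×ˢ Finset.range K := by
    intro p hp
    rw [Finset.mem_product, Finset.mem_range, Finset.mem_range]
    exact ⟨Nat.mod_lt _ (by omega), blk_lt hK (hQp p hp).1.one_lt.le⟩
  have h7 : SS Q = ∑ z ∈ Finset.range A ×ˢ Finset.range K, SS (Q.filter fun p => (p % A, blk K p) = z) := by
    unfold SS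
    exact (Finset.sum_fiberwise_of_maps_to hmaps _).symm
  have h8 : ∀ z ∈ Finset.range A ×ˢ Finset.range K, SS (Q.filter fun p => (p % A, blk K p) = z) ≤ T' := by
    intro z _
    refine le_trans (hcon _ z.1 z.2 fun p hp => ?_).le hTT
    rw [Finset.mem_filter] at hp
    have h9 := hQp p hp.1
    exact ⟨h9.1, h9.2, by rw [← hp.2], by rw [← hp.2]⟩
  have h9 := Finset.sum_le_sum h8
  rw [← h7, Finset.sum_const, Finset.card_product, Finset.card_range, Finset.card_range, nsmul_eq_mul] at h9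
  push_cast at h9
  have hAr : (1 : ℝ) ≤ A := by exact_mod_cast hA
  have hKr : (1 : ℝ) ≤ K := by exact_mod_cast hK
  nlinarith [mul_pos (show (0 : ℝ) < A by linarith) (show (0 : ℝ) < K by linarith)]

/-- the reciprocals over the blocks -/
lemma block_sum {P : Finset ℕ} {K i : ℕ} (hK : 1 ≤ K) (hP : ∀ p ∈ P, p.Prime ∧ blk K p = i) :
    ∑ j ∈ P.image (Nat.log 2), ((P.filter fun p => Nat.log 2 p = j).card : ℝ) / yy K i j ≤ (1 + 1 / K) * SS P := by
  classical
  have h1 : SS P = ∑ j ∈ P.image (Nat.log 2), SS (P.filter fun p => Nat.log 2 p = j) := by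
    unfold SS
    exact (Finset.sum_fiberwise_of_maps_to (fun p hp => Finset.mem_image_of_mem _ hp) _).symm
  rw [h1, Finset.mul_sum]
  refine Finset.sum_le_sum fun j _ => ?_
  unfold SS
  rw [Finset.mul_sum, div_eq_mul_inv, ← nsmul_eq_mul, ← Finset.sum_const]
  refine Finset.sum_le_sum fun p hp => ?_
  rw [Finset.mem_filter] at hp
  obtain ⟨hpp, hpb⟩ := hP p hp.1
  have h2 := (blk_bd hK hpp.one_lt.le).2
  rw [hpb, hp.2] at h2
  have hy := yy_pos K i j
  have hp0 : (0 : ℝ) < p := by exact_mod_cast hpp.pos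
  rw [mul_one_div, le_div_iff₀ hp0, inv_mul_eq_div, div_le_iff₀ hy]
  exact h2

lemma block_sqrt {P : Finset ℕ} {K i : ℕ} (hP : ∀ p ∈ P, p.Prime) :
    ∑ j ∈ P.image (Nat.log 2), √((P.filter fun p => Nat.log 2 p = j).card : ℝ) / yy K i j ≤ 4 := by
  classical
  have h1 : ∀ j ∈ P.image (Nat.log 2), √((P.filter fun p => Nat.log 2 p = j).card : ℝ) / yy K i j ≤
      (3 / 4 : ℝ) ^ j := by
    intro j _
    have h2 : (P.filter fun p => Nat.log 2 p = j).card ≤ 2 ^ j := by
      have hsub : (P.filter fun p => Nat.log 2 p = j) ⊆ Finset.Ico (2 ^ j) (2 ^ (j + 1)) := by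
        intro p hp
        rw [Finset.mem_filter] at hp
        rw [Finset.mem_Ico, ← hp.2]
        exact ⟨Nat.pow_log_le_self 2 (hP p hp.1).pos.ne', Nat.lt_pow_succ_log_self (by norm_num) p⟩
      refine (Finset.card_le_card hsub).trans (le_of_eq ?_)
      rw [Nat.card_Ico, pow_succ]
      omega
    have h3 : √((P.filter fun p => Nat.log 2 p = j).card : ℝ) ≤ √((2 : ℝ) ^ j) :=
      Real.sqrt_le_sqrt (by exact_mod_cast h2)
    have h4 := yy_ge K i j
    have h5 : √((2 : ℝ) ^ j) ≤ (3 / 2 : ℝ) ^ j := by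
      rw [Real.sqrt_le_left (by positivity), ← pow_mul, mul_comm, pow_mul]
      exact pow_le_pow_left₀ (by norm_num) (by norm_num) j
    rw [div_le_iff₀ (yy_pos K i j)]
    calc √((P.filter fun p => Nat.log 2 p = j).card : ℝ) ≤ (3 / 2 : ℝ) ^ j := h3.trans h5
      _ = (3 / 4) ^ j * 2 ^ j := by rw [← mul_pow]; norm_num
      _ ≤ (3 / 4) ^ j * yy K i j := mul_le_mul_of_nonneg_left h4 (by positivity)
  refine (Finset.sum_le_sum h1).trans ?_
  have h6 := (summable_geometric_of_lt_one (show (0 : ℝ) ≤ 3 / 4 by norm_num) (by norm_num)).sum_le_tsum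
    (P.image (Nat.log 2)) (fun j _ => by positivity)
  rw [tsum_geometric_of_lt_one (by norm_num) (by norm_num)] at h6
  refine h6.trans (by norm_num)

end Pool.Agent.N805.CH
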