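import Pool.Agent.N805.CH.A

/-! # A one-sided form of the criterion of Daboussi and Kátai -/

set_option autoImplicit false

open Finset Filter Topology

namespace Pool.Agent.N805.CH

open Pool.Agent.W24.Katai (om SS SS_nonneg tk sum_dvd exists_SS mult_count step1 Mul1)

/-- correlations along two dilates -/
noncomputable def Co (g : ℕ → ℝ) (p q M : ℕ) : ℝ := ∑ m ∈ Ioc 0 M, g (p * m) * g (q * m)

lemma card_class (A c M : ℕ) (hA : 1 ≤ A) :
    (((Ioc 0 M).filter fun m => m % A = c).card : ℝ) ≤ M / A + 1 := by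
  have h1 : ((Ioc 0 M).filter fun m => m % A = c).card ≤ M / A + 1 := by
    have h2 : ((Ioc 0 M).filter fun m => m % A = c).card ≤ (Finset.range (M / A + 1)).card := by
      refine Finset.card_le_card_of_injOn (fun m => m / A) ?_ ?_
      · intro m hm
        have hm' := Finset.mem_filter.1 (Finset.mem_coe.1 hm)
        rw [Finset.mem_Ioc] at hm'
        rw [Finset.mem_coe, Finset.mem_range]
        exact Nat.lt_succ_of_le (Nat.div_le_div_right hm'.1.2)
      · intro m hm m' hm' he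
        have h3 := (Finset.mem_filter.1 (Finset.mem_coe.1 hm)).2
        have h4 := (Finset.mem_filter.1 (Finset.mem_coe.1 hm')).2
        have h5 := Nat.div_add_mod m A
        have h6 := Nat.div_add_mod m' A
        simp only at he
        rw [← h5, ← h6, h3, h4, he]
    rwa [Finset.card_range] at h2
  have h2 : ((M / A : ℕ) : ℝ) ≤ (M : ℝ) / A := Nat.cast_div_le
  have h3 : (((Ioc 0 M).filter fun m => m % A = c).card : ℝ) ≤ ((M / A + 1 : ℕ) : ℝ) := by exact_mod_cast h1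
  push_cast at h3
  linarith

/-- the support of all the dilates lies in one class -/
lemma supp_class {A r : ℕ} {g : ℕ → ℝ} (hgs : ∀ n, g n ≠ 0 → n % A = r)
    {P : Finset ℕ} {ρ : ℕ} (hP : ∀ p ∈ P, p.Prime ∧ Nat.Coprime p A ∧ p % A = ρ) :
    ∃ c : ℕ, ∀ p ∈ P, ∀ m, g (p * m) ≠ 0 → m % A = c := by
  by_cases h : ∃ p ∈ P, ∃ m, g (p * m) ≠ 0
  · obtain ⟨p, hp, m, hm⟩ := h
    refine ⟨m % A, fun q hq n hn => ?_⟩
    have h1 := hgs _ hm
    have h2 := hgs _ hn
    have h3 : (p * m) ≡ (q * n) [MOD A] := by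
      show p * m % A = q * n % A
      rw [h1, h2]
    have h4 : p ≡ q [MOD A] := by
      show p % A = q % A
      rw [(hP p hp).2.2, (hP q hq).2.2]
    have h5 : q * m ≡ q * n [MOD A] := (Nat.ModEq.mul_right m h4.symm).trans h3
    have h6 : m ≡ n [MOD A] := Nat.ModEq.cancel_left_of_coprime (Nat.Coprime.symm (hP q hq).2.1) h5
    exact h6.symm
  · push Not at h
    exact ⟨0, fun p hp m hm => absurd (h p hp m) hm⟩

/-- one block -/
lemma block_bound {A r : ℕ} (hA : 1 ≤ A) {g : ℕ → ℝ} (hg : ∀ n, |g n| ≤ 1) (hgs : ∀ n, g n ≠ 0 → n % A = r)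
    {f : ℕ → ℝ} (hf : ∀ n, |f n| ≤ 1) (hfm : ∀ m n, m ≠ 0 → n ≠ 0 → f (m * n) = f m * f n) {s : ℝ}
    (hfs : ∀ p : ℕ, p.Prime → f p = s)
    {P : Finset ℕ} {ρ : ℕ} (hP : ∀ p ∈ P, p.Prime ∧ Nat.Coprime p A ∧ p % A = ρ) {Y : ℝ} (hY : 0 < Y)
    (hPY : ∀ p ∈ P, Y ≤ p) {η K0 K1 : ℝ} (hη : 0 < η) (hK0 : 0 ≤ K0) (hK1 : 1 ≤ K1) (hK01 : K0 ≤ η * K1)
    (hco : ∀ p ∈ P, ∀ q ∈ P, p ≠ q → ∀ M : ℕ, Co g p q M ≤ η / A * M + K0) (N : ℕ) :
    |∑ p ∈ P, ∑ m ∈ Ioc 0 (N / p), f (p * m) * g (p * m)| ≤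
      (N / (A * Y) + K1) * (√(P.card : ℝ) + P.card * √η) := by
  classical
  have hA0 : (0 : ℝ) < A := by exact_mod_cast hA
  obtain ⟨c, hc⟩ := supp_class hgs hP
  obtain ⟨U, hU⟩ : ∃ U : ℕ, U = ⌊(N : ℝ) / Y⌋₊ := ⟨_, rfl⟩
  have hUle : (U : ℝ) ≤ N / Y := by rw [hU]; exact Nat.floor_le (by positivity)
  have hdiv : ∀ p ∈ P, N / p ≤ U := by
    intro p hp
    rw [hU]
    apply Nat.le_floor
    have h1 : ((N / p : ℕ) : ℝ) ≤ (N : ℝ) / p := Nat.cast_div_le
    exact h1.trans (div_le_div_of_nonneg_left (Nat.cast_nonneg _) hY (hPY p hp))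
  obtain ⟨cm, hcm⟩ : ∃ cm : ℕ → ℕ → ℝ, cm = fun p m => if m ≤ N / p then g (p * m) else 0 := ⟨_, rfl⟩
  obtain ⟨u, hu⟩ : ∃ u : ℝ, u = N / (A * Y) := ⟨_, rfl⟩
  have hu0 : 0 ≤ u := by rw [hu]; positivity
  have huU : (U : ℝ) / A ≤ u := by
    rw [hu, div_le_div_iff₀ hA0 (by positivity)]
    rw [le_div_iff₀ hY] at hUle
    calc (U : ℝ) * (A * Y) = (U * Y) * A := by ring
      _ ≤ N * A := mul_le_mul_of_nonneg_right hUle hA0.le
  -- the set of `m`
  obtain ⟨Sm, hSm⟩ : ∃ Sm : Finset ℕ, Sm = (Ioc 0 U).filter fun m => m % A = c := ⟨_, rfl⟩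
  have hScard : (Sm.card : ℝ) ≤ u + 1 := by
    rw [hSm]
    exact (card_class A c U hA).trans (by linarith)
  have hcm0 : ∀ p ∈ P, ∀ m, m ∉ Sm → m ≠ 0 → cm p m = 0 := by
    intro p hp m hm hm0
    rw [hcm]
    simp only
    split_ifs with h1
    · by_contra h2
      apply hm
      rw [hSm, Finset.mem_filter, Finset.mem_Ioc]
      exact ⟨⟨Nat.pos_of_ne_zero hm0, h1.trans (hdiv p hp)⟩, hc p hp m h2⟩
    · rfl
  -- rewriting the sum
  have e1 : ∀ p ∈ P, ∑ m ∈ Ioc 0 (N / p), f (p * m) * g (p * m) = ∑ m ∈ Sm, s * f m * cm p m := by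
    intro p hp
    have h1 : ∑ m ∈ Ioc 0 (N / p), f (p * m) * g (p * m) = ∑ m ∈ Ioc 0 U, s * f m * cm p m := by
      rw [← Finset.sum_subset (Finset.Ioc_subset_Ioc_right (hdiv p hp))]
      · refine Finset.sum_congr rfl fun m hm => ?_
        rw [Finset.mem_Ioc] at hm
        rw [hcm]
        simp only
        rw [if_pos hm.2, hfm p m (hP p hp).1.pos.ne' (by omega), hfs p (hP p hp).1]
      · intro m hm hm'
        rw [Finset.mem_Ioc] at hm hm'
        rw [hcm]
        simp only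
        rw [if_neg (fun h => hm' ⟨hm.1, h⟩), mul_zero]
    rw [h1]
    symm
    apply Finset.sum_subset
    · rw [hSm]; exact Finset.filter_subset _ _
    · intro m hm hm'
      rw [Finset.mem_Ioc] at hm
      rw [hcm0 p hp m hm' (by omega), mul_zero]
  rw [Finset.sum_congr rfl e1, Finset.sum_comm]
  have hs : |s| ≤ 1 := by rw [← hfs 2 Nat.prime_two]; exact hf 2
  have e2 : |∑ m ∈ Sm, ∑ p ∈ P, s * f m * cm p m| ≤ ∑ m ∈ Sm, |∑ p ∈ P, cm p m| := by
    refine (Finset.abs_sum_le_sum_abs _ _).trans (Finset.sum_le_sum fun m _ => ?_)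
    rw [← Finset.mul_sum, abs_mul]
    have h1 : |s * f m| ≤ 1 := by
      rw [abs_mul]
      calc |s| * |f m| ≤ 1 * 1 := mul_le_mul hs (hf m) (abs_nonneg _) zero_le_one
        _ = 1 := by ring
    calc |s * f m| * |∑ p ∈ P, cm p m| ≤ 1 * |∑ p ∈ P, cm p m| := mul_le_mul_of_nonneg_right h1 (abs_nonneg _)
      _ = _ := one_mul _
  -- the second moment
  have e3 : ∑ m ∈ Sm, (∑ p ∈ P, cm p m) ^ 2 ≤ P.card * (u + 1) + (P.card : ℝ) ^ 2 * (η * u + K0) := by
    have h1 : ∑ m ∈ Sm, (∑ p ∈ P, cm p m) ^ 2 = ∑ p ∈ P, ∑ q ∈ P, ∑ m ∈ Sm, cm p m * cm q m := by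
      calc ∑ m ∈ Sm, (∑ p ∈ P, cm p m) ^ 2 = ∑ m ∈ Sm, ∑ p ∈ P, ∑ q ∈ P, cm p m * cm q m := by
            refine Finset.sum_congr rfl fun m _ => ?_
            rw [sq, Finset.sum_mul_sum]
        _ = _ := by
            rw [Finset.sum_comm]
            refine Finset.sum_congr rfl fun p _ => ?_
            rw [Finset.sum_comm]
    have h2 : ∀ p ∈ P, ∀ q ∈ P, ∑ m ∈ Sm, cm p m * cm q m ≤
        (if p = q then u + 1 else 0) + (η * u + K0) := by
      intro p hp q hq
      by_cases hpq : p = q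
      · subst hpq
        rw [if_pos rfl]
        have h3 : ∑ m ∈ Sm, cm p m * cm p m ≤ ∑ m ∈ Sm, (1 : ℝ) := by
          refine Finset.sum_le_sum fun m _ => ?_
          rw [hcm]
          simp only
          split_ifs
          · have := abs_le.1 (hg (p * m))
            nlinarith [this.1, this.2]
          · norm_num
        rw [Finset.sum_const, nsmul_eq_mul, mul_one] at h3
        have h4 : 0 ≤ η * u + K0 := by positivity
        linarith
      · rw [if_neg hpq, zero_add]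
        have h3 : ∑ m ∈ Sm, cm p m * cm q m = Co g p q (min (N / p) (N / q)) := by
          unfold Co
          have h4 : ∑ m ∈ Sm, cm p m * cm q m = ∑ m ∈ Ioc 0 U, cm p m * cm q m := by
            apply Finset.sum_subset
            · rw [hSm]; exact Finset.filter_subset _ _
            · intro m hm hm'
              rw [Finset.mem_Ioc] at hm
              rw [hcm0 p hp m hm' (by omega), zero_mul]
          rw [h4, ← Finset.sum_subset (Finset.Ioc_subset_Ioc_right ((min_le_left _ (N / q)).trans (hdiv p hp)))]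
          · refine Finset.sum_congr rfl fun m hm => ?_
            rw [Finset.mem_Ioc, le_min_iff] at hm
            rw [hcm]
            simp only
            rw [if_pos hm.2.1, if_pos hm.2.2]
          · intro m hm hm'
            rw [Finset.mem_Ioc] at hm hm'
            rw [hcm]
            simp only
            by_cases h5 : m ≤ N / p
            · by_cases h6 : m ≤ N / q
              · exact absurd ⟨hm.1, le_min h5 h6⟩ hm'
              · rw [if_neg h6, mul_zero]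
            · rw [if_neg h5, zero_mul]
        rw [h3]
        refine (hco p hp q hq hpq _).trans ?_
        have h5 : ((min (N / p) (N / q) : ℕ) : ℝ) ≤ U := by
          exact_mod_cast (min_le_left _ _).trans (hdiv p hp)
        have h6 : η / A * ((min (N / p) (N / q) : ℕ) : ℝ) ≤ η / A * U := mul_le_mul_of_nonneg_left h5 (by positivity)
        have h7 : η / A * (U : ℝ) = η * (U / A) := by ring
        have h8 : η * ((U : ℝ) / A) ≤ η * u := mul_le_mul_of_nonneg_left huU hη.le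
        linarith
    rw [h1]
    refine (Finset.sum_le_sum fun p hp => Finset.sum_le_sum fun q hq => h2 p hp q hq).trans (le_of_eq ?_)
    simp only [Finset.sum_add_distrib, Finset.sum_const, nsmul_eq_mul]
    congr 1
    · have : ∀ p ∈ P, ∑ q ∈ P, (if p = q then u + 1 else (0 : ℝ)) = u + 1 := by
        intro p hp
        rw [Finset.sum_ite_eq, if_pos hp]
      rw [Finset.sum_congr rfl this, Finset.sum_const, nsmul_eq_mul]
    · ring
  refine e2.trans ?_
  have e4 : (∑ m ∈ Sm, |∑ p ∈ P, cm p m|) ^ 2 ≤ (u + 1) * (P.card * (u + 1) + (P.card : ℝ) ^ 2 * (η * u + K0)) := by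
    refine sq_sum_le_card_mul_sum_sq.trans ?_
    simp only [sq_abs]
    have h0 : 0 ≤ ∑ m ∈ Sm, (∑ p ∈ P, cm p m) ^ 2 := Finset.sum_nonneg fun m _ => sq_nonneg _
    exact mul_le_mul hScard e3 h0 (by positivity)
  have hc0 : (0 : ℝ) ≤ P.card := Nat.cast_nonneg _
  have e5 : (u + 1) * (P.card * (u + 1) + (P.card : ℝ) ^ 2 * (η * u + K0)) ≤
      ((u + K1) * (√(P.card : ℝ) + P.card * √η)) ^ 2 := by
    have h1 : η * u + K0 ≤ η * (u + K1) := by linarith
    have h2 : u + 1 ≤ u + K1 := by linarith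
    have h3 : 0 ≤ u + 1 := by linarith
    have hsp : √(P.card : ℝ) ^ 2 = P.card := Real.sq_sqrt hc0
    have hsη : √η ^ 2 = η := Real.sq_sqrt hη.le
    have h4 : (P.card : ℝ) + (P.card : ℝ) ^ 2 * η ≤ (√(P.card : ℝ) + P.card * √η) ^ 2 := by
      have : 0 ≤ √(P.card : ℝ) * (P.card * √η) := by positivity
      have e : (√(P.card : ℝ) + P.card * √η) ^ 2 =
        √(P.card : ℝ) ^ 2 + 2 * (√(P.card : ℝ) * (P.card * √η)) + P.card ^ 2 * √η ^ 2 := by ring
      rw [e, hsp, hsη]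
      linarith
    calc (u + 1) * (P.card * (u + 1) + (P.card : ℝ) ^ 2 * (η * u + K0))
        ≤ (u + K1) * (P.card * (u + K1) + (P.card : ℝ) ^ 2 * (η * (u + K1))) := by gcongr
      _ = (u + K1) ^ 2 * (P.card + (P.card : ℝ) ^ 2 * η) := by ring
      _ ≤ (u + K1) ^ 2 * (√(P.card : ℝ) + P.card * √η) ^ 2 := mul_le_mul_of_nonneg_left h4 (sq_nonneg _)
      _ = _ := by ring
  rw [← hu]
  have h9 : 0 ≤ (u + K1) * (√(P.card : ℝ) + P.card * √η) := by
    have : 0 ≤ u + K1 := by linarith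
    positivity
  exact abs_le_of_sq_le_sq' (e4.trans e5) h9 |>.2

end Pool.Agent.N805.CH
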