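import Pool.Agent.N805.CH.B

/-! # A one-sided form of the criterion of Daboussi and Kátai: the criterion -/

set_option autoImplicit false

open Finset Filter Topology

namespace Pool.Agent.N805.CH

open Pool.Agent.W24.Katai (om SS SS_nonneg tk sum_dvd exists_SS mult_count step1 Mul1)

lemma step1_real {P : Finset ℕ} (hP : ∀ p ∈ P, p.Prime) {h : ℕ → ℝ} (hh : ∀ n, |h n| ≤ 1) (N : ℕ) :
    |SS P * ∑ n ∈ Ioc 0 N, h n - ∑ p ∈ P, ∑ m ∈ Ioc 0 (N / p), h (p * m)| ≤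
      √(N * (N * SS P + 2 * SS P * (P.card : ℝ))) := by
  have h1 := step1 hP (F := fun n => ((h n : ℝ) : ℂ)) (fun n => by
    rw [Complex.norm_real, Real.norm_eq_abs]; exact hh n) (g := fun _ => 1)
    ⟨fun _ => by rw [norm_one], fun _ _ _ => by ring⟩ N
  refine le_trans (le_of_eq ?_) h1
  rw [← Real.norm_eq_abs, ← Complex.norm_real]
  congr 1
  push_cast
  simp only [one_mul]

/-- the one-sided criterion -/
theorem onesided {A r P0 : ℕ} (hA : 1 ≤ A) {g : ℕ → ℝ} (hg : ∀ n, |g n| ≤ 1) (hgs : ∀ n, g n ≠ 0 → n % A = r)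
    {f : ℕ → ℝ} (hf : ∀ n, |f n| ≤ 1) (hfm : ∀ m n, m ≠ 0 → n ≠ 0 → f (m * n) = f m * f n) {s : ℝ}
    (hfs : ∀ p : ℕ, p.Prime → f p = s) {η : ℝ} (hη : 0 ≤ η)
    (hco : ∀ p q : ℕ, p.Prime → q.Prime → p ≠ q → P0 < p → P0 < q → p % A = q % A →
      ∀ ε : ℝ, 0 < ε → ∀ᶠ M : ℕ in atTop, Co g p q M ≤ (η / A + ε) * M) :
    ∀ ε : ℝ, 0 < ε → ∀ᶠ N : ℕ in atTop, |∑ n ∈ Ioc 0 N, f n * g n| ≤ (√η / A + ε) * N := by
  classical
  intro ε hε
  have hA0 : (0 : ℝ) < A := by exact_mod_cast hA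
  have hA1 : (1 : ℝ) ≤ A := by exact_mod_cast hA
  -- parameters
  obtain ⟨e1, he1⟩ : ∃ e1 : ℝ, e1 = (ε / 16) ^ 2 := ⟨_, rfl⟩
  have he1p : 0 < e1 := by rw [he1]; positivity
  have hse1 : √e1 = ε / 16 := by rw [he1]; exact Real.sqrt_sq (by positivity)
  obtain ⟨K', hK'⟩ := exists_nat_ge (√η * 8 / ε)
  obtain ⟨K, hK⟩ : ∃ K : ℕ, K = K' + 1 := ⟨_, rfl⟩
  have hK1 : 1 ≤ K := by omega
  have hK0 : (0 : ℝ) < K := by exact_mod_cast hK1
  have hKε : √η / K ≤ ε / 8 := by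
    rw [div_le_iff₀ hK0]
    have h1 : √η * 8 / ε ≤ K := hK'.trans (by rw [hK]; push_cast; linarith)
    rw [div_le_iff₀ hε] at h1
    linarith
  obtain ⟨P, ρ, i, hP, hS⟩ := exists_P A K (max P0 A) hA hK1 (max 1 (max (16 / ε) (64 / ε ^ 2)))
  obtain ⟨L, hL⟩ : ∃ L : ℝ, L = SS P := ⟨_, rfl⟩
  rw [← hL] at hS
  have hL1 : 1 ≤ L := (le_max_left _ _).trans hS
  have hL2 : 16 / ε ≤ L := ((le_max_left _ _).trans (le_max_right _ _)).trans hS
  have hL3 : 64 / ε ^ 2 ≤ L := ((le_max_right _ _).trans (le_max_right _ _)).trans hS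
  have hL0 : 0 < L := by linarith
  have hPp : ∀ p ∈ P, p.Prime := fun p hp => (hP p hp).1
  have hPc : ∀ p ∈ P, p.Prime ∧ Nat.Coprime p A ∧ p % A = ρ := by
    intro p hp
    obtain ⟨h1, h2, h3, _⟩ := hP p hp
    refine ⟨h1, ?_, h3⟩
    rw [Nat.Prime.coprime_iff_not_dvd h1]
    intro hd
    have := Nat.le_of_dvd hA hd
    have := le_max_right P0 A
    omega
  obtain ⟨η', hη'⟩ : ∃ η' : ℝ, η' = η + e1 := ⟨_, rfl⟩
  have hη'p : 0 < η' := by rw [hη']; linarith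
  have hsη' : √η' ≤ √η + ε / 16 := by
    rw [hη', ← hse1, Real.sqrt_le_left (by positivity)]
    nlinarith [Real.sq_sqrt hη, Real.sq_sqrt he1p.le, mul_nonneg (Real.sqrt_nonneg η) (Real.sqrt_nonneg e1)]
  -- correlations
  have hc1 : ∀ p ∈ P, ∀ q ∈ P, p ≠ q → ∃ K0 : ℕ, ∀ M : ℕ, Co g p q M ≤ η' / A * M + K0 := by
    intro p hp q hq hne
    have hp1 := hP p hp
    have hq1 := hP q hq
    have h1 := hco p q hp1.1 hq1.1 hne (lt_of_le_of_lt (le_max_left _ _) hp1.2.1)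
      (lt_of_le_of_lt (le_max_left _ _) hq1.2.1) (by rw [hp1.2.2.1, hq1.2.2.1]) (e1 / A) (by positivity)
    rw [eventually_atTop] at h1
    obtain ⟨K0, hK0⟩ := h1
    refine ⟨K0, fun M => ?_⟩
    have hM0 : (0 : ℝ) ≤ M := Nat.cast_nonneg M
    have hK00 : (0 : ℝ) ≤ K0 := Nat.cast_nonneg K0
    by_cases hM : K0 ≤ M
    · have h2 := hK0 M hM
      have h3 : (η / A + e1 / A) * (M : ℝ) = η' / A * M := by rw [hη']; ring
      linarith
    · push Not at hM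
      have h2 : (M : ℝ) ≤ K0 := by exact_mod_cast hM.le
      have h3 : Co g p q M ≤ M := by
        unfold Co
        calc ∑ m ∈ Ioc 0 M, g (p * m) * g (q * m) ≤ ∑ m ∈ Ioc 0 M, (1 : ℝ) := by
              refine Finset.sum_le_sum fun m _ => ?_
              refine (le_abs_self _).trans ?_
              rw [abs_mul]
              calc |g (p * m)| * |g (q * m)| ≤ 1 * 1 := mul_le_mul (hg _) (hg _) (abs_nonneg _) zero_le_one
                _ = 1 := by ring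
          _ = _ := by simp
      have h4 : 0 ≤ η' / A * (M : ℝ) := by positivity
      linarith
  choose! Kf hKf using hc1
  obtain ⟨K0, hK0d⟩ : ∃ K0 : ℕ, K0 = ∑ p ∈ P, ∑ q ∈ P, Kf p q := ⟨_, rfl⟩
  have hc2 : ∀ p ∈ P, ∀ q ∈ P, p ≠ q → ∀ M : ℕ, Co g p q M ≤ η' / A * M + K0 := by
    intro p hp q hq hne M
    have h3 := hKf p hp q hq hne M
    have h4 : Kf p q ≤ K0 := by
      calc Kf p q ≤ ∑ q ∈ P, Kf p q := Finset.single_le_sum (f := fun q => Kf p q) (fun _ _ => Nat.zero_le _) hq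
        _ ≤ K0 := by
          rw [hK0d]
          exact Finset.single_le_sum (f := fun p => ∑ q ∈ P, Kf p q) (fun _ _ => Nat.zero_le _) hp
    have h5 : (Kf p q : ℝ) ≤ K0 := by exact_mod_cast h4
    linarith
  obtain ⟨K1, hK1d⟩ : ∃ K1 : ℝ, K1 = 1 + K0 / η' := ⟨_, rfl⟩
  have hK11 : 1 ≤ K1 := by
    rw [hK1d]
    have : (0 : ℝ) ≤ K0 / η' := by positivity
    linarith
  have hK01 : (K0 : ℝ) ≤ η' * K1 := by
    rw [hK1d, mul_add, mul_div_cancel₀ _ hη'p.ne']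
    linarith
  -- constants
  obtain ⟨J, hJ⟩ : ∃ J : Finset ℕ, J = P.image (Nat.log 2) := ⟨_, rfl⟩
  obtain ⟨Pj, hPj⟩ : ∃ Pj : ℕ → Finset ℕ, Pj = fun j => P.filter fun p => Nat.log 2 p = j := ⟨_, rfl⟩
  obtain ⟨C2, hC2⟩ : ∃ C2 : ℝ, C2 = ∑ j ∈ J, K1 * (√((Pj j).card : ℝ) + (Pj j).card * √η') := ⟨_, rfl⟩
  have hC20 : 0 ≤ C2 := by
    rw [hC2]
    exact Finset.sum_nonneg fun j _ => by positivity
  have hmain : ∀ N : ℕ, |∑ p ∈ P, ∑ m ∈ Ioc 0 (N / p), f (p * m) * g (p * m)| ≤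
      N / A * (4 + √η' * ((1 + 1 / K) * L)) + C2 := by
    intro N
    have h1 : ∑ p ∈ P, ∑ m ∈ Ioc 0 (N / p), f (p * m) * g (p * m) =
        ∑ j ∈ J, ∑ p ∈ Pj j, ∑ m ∈ Ioc 0 (N / p), f (p * m) * g (p * m) := by
      rw [hJ, hPj]
      exact (Finset.sum_fiberwise_of_maps_to (fun p hp => Finset.mem_image_of_mem _ hp) _).symm
    rw [h1]
    refine (Finset.abs_sum_le_sum_abs _ _).trans ?_
    have h2 : ∀ j ∈ J, |∑ p ∈ Pj j, ∑ m ∈ Ioc 0 (N / p), f (p * m) * g (p * m)| ≤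
        N / A * (√((Pj j).card : ℝ) / yy K i j + √η' * ((Pj j).card / yy K i j)) +
          K1 * (√((Pj j).card : ℝ) + (Pj j).card * √η') := by
      intro j _
      have hsub : ∀ p ∈ Pj j, p ∈ P ∧ Nat.log 2 p = j := by
        intro p hp
        rw [hPj] at hp
        exact Finset.mem_filter.1 hp
      have hy := yy_pos K i j
      refine (block_bound hA hg hgs hf hfm hfs (P := Pj j) (ρ := ρ) (fun p hp => hPc p (hsub p hp).1)
        (Y := yy K i j) hy (fun p hp => ?_) hη'p (Nat.cast_nonneg K0) hK11 hK01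
        (fun p hp q hq => hc2 p (hsub p hp).1 q (hsub q hq).1) N).trans (le_of_eq ?_)
      · have h3 := hP p (hsub p hp).1
        have h4 := (blk_bd hK1 h3.1.one_lt.le).1
        rw [h3.2.2.2, (hsub p hp).2] at h4
        exact h4
      · field_simp
    refine (Finset.sum_le_sum h2).trans ?_
    rw [Finset.sum_add_distrib, ← Finset.mul_sum, ← hC2, Finset.sum_add_distrib, ← Finset.mul_sum]
    have h3 : ∑ j ∈ J, √((Pj j).card : ℝ) / yy K i j ≤ 4 := by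
      rw [hJ, hPj]; exact block_sqrt hPp
    have h4 : ∑ j ∈ J, ((Pj j).card : ℝ) / yy K i j ≤ (1 + 1 / K) * L := by
      rw [hJ, hPj, hL]; exact block_sum hK1 fun p hp => ⟨hPp p hp, (hP p hp).2.2.2⟩
    gcongr
  -- the size of N
  obtain ⟨N1, hN1⟩ := exists_nat_ge (C2 * 4 / ε)
  filter_upwards [eventually_ge_atTop (max N1 (2 * P.card))] with N hN
  have hNN1 : C2 ≤ ε / 4 * N := by
    have h1 : C2 * 4 / ε ≤ N := hN1.trans (by exact_mod_cast (le_max_left _ _).trans hN)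
    rw [div_le_iff₀ hε] at h1
    linarith
  have hNN2 : 2 * (P.card : ℝ) ≤ N := by exact_mod_cast (le_max_right _ _).trans hN
  have hN0 : (0 : ℝ) ≤ N := Nat.cast_nonneg N
  have hh : ∀ n, |f n * g n| ≤ 1 := by
    intro n
    rw [abs_mul]
    calc |f n| * |g n| ≤ 1 * 1 := mul_le_mul (hf n) (hg n) (abs_nonneg _) zero_le_one
      _ = 1 := by ring
  have s1 := step1_real hPp hh N
  rw [← hL] at s1
  have s2 := hmain N
  have r1 : √(N * (N * L + 2 * L * (P.card : ℝ))) ≤ 2 * √L * N := by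
    rw [Real.sqrt_le_left (by positivity)]
    have e : (2 * √L * N) ^ 2 = 4 * L * N ^ 2 := by
      rw [mul_pow, mul_pow, Real.sq_sqrt hL0.le]; ring
    rw [e]
    have : 2 * L * (P.card : ℝ) ≤ L * N := by nlinarith
    nlinarith [mul_le_mul_of_nonneg_left this hN0, mul_nonneg hL0.le (sq_nonneg (N : ℝ))]
  have s3 : |L * ∑ n ∈ Ioc 0 N, f n * g n| ≤ 2 * √L * N + (N / A * (4 + √η' * ((1 + 1 / K) * L)) + C2) := by
    have e : L * ∑ n ∈ Ioc 0 N, f n * g n = (L * ∑ n ∈ Ioc 0 N, f n * g n -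
        ∑ p ∈ P, ∑ m ∈ Ioc 0 (N / p), f (p * m) * g (p * m)) +
        ∑ p ∈ P, ∑ m ∈ Ioc 0 (N / p), f (p * m) * g (p * m) := by ring
    rw [e]
    exact (abs_add_le _ _).trans (add_le_add (s1.trans r1) s2)
  rw [abs_mul, abs_of_pos hL0] at s3
  -- divide by L
  have hsL : √L * √L = L := Real.mul_self_sqrt hL0.le
  have hsL8 : 8 / ε ≤ √L := by
    apply Real.le_sqrt_of_sq_le
    refine le_trans (le_of_eq ?_) hL3
    rw [div_pow]; norm_num
  have q1 : 2 * √L * N ≤ L * (ε / 4 * N) := by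
    have h1 : 8 ≤ √L * ε := by rwa [div_le_iff₀ hε] at hsL8
    have h2 : 0 ≤ √L * (N : ℝ) := by positivity
    calc 2 * √L * N = √L * N * 8 / 4 := by ring
      _ ≤ √L * N * (√L * ε) / 4 := by gcongr
      _ = (√L * √L) * (ε / 4 * N) := by ring
      _ = _ := by rw [hsL]
  have q2 : (N : ℝ) / A * 4 ≤ L * (ε / 4 * N) := by
    have h1 : 16 ≤ L * ε := by rwa [div_le_iff₀ hε] at hL2
    have h2 : (N : ℝ) / A ≤ N := div_le_self hN0 hA1
    nlinarith
  have q3 : √η' * (1 + 1 / K) ≤ √η + ε / 4 := by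
    have h1 : (1 : ℝ) / K ≤ 1 := by
      rw [div_le_one hK0]; exact_mod_cast hK1
    have h2 : 0 ≤ (1 : ℝ) / K := by positivity
    calc √η' * (1 + 1 / K) ≤ (√η + ε / 16) * (1 + 1 / K) := by gcongr
      _ = √η + √η / K + ε / 16 + ε / 16 * (1 / K) := by ring
      _ ≤ √η + ε / 8 + ε / 16 + ε / 16 * 1 := by gcongr
      _ = _ := by ring
  have q4 : (N : ℝ) / A * (√η' * ((1 + 1 / K) * L)) ≤ L * ((√η / A + ε / 4) * N) := by
    have h1 : (N : ℝ) / A * (√η' * ((1 + 1 / K) * L)) = L * ((N : ℝ) / A * (√η' * (1 + 1 / K))) := by ring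
    rw [h1]
    refine mul_le_mul_of_nonneg_left ?_ hL0.le
    have h2 : (N : ℝ) / A * (√η' * (1 + 1 / K)) ≤ N / A * (√η + ε / 4) :=
      mul_le_mul_of_nonneg_left q3 (by positivity)
    have h3 : (N : ℝ) / A * (ε / 4) ≤ N * (ε / 4) := mul_le_mul_of_nonneg_right (div_le_self hN0 hA1) (by positivity)
    calc (N : ℝ) / A * (√η' * (1 + 1 / K)) ≤ N / A * (√η + ε / 4) := h2
      _ = √η / A * N + N / A * (ε / 4) := by ring
      _ ≤ √η / A * N + N * (ε / 4) := by linarith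
      _ = _ := by ring
  have q5 : C2 ≤ L * (ε / 4 * N) := by
    have h1 : 0 ≤ ε / 4 * (N : ℝ) := by positivity
    nlinarith
  have hfin : L * |∑ n ∈ Ioc 0 N, f n * g n| ≤ L * ((√η / A + ε) * N) := by
    calc L * |∑ n ∈ Ioc 0 N, f n * g n| ≤ 2 * √L * N + (N / A * (4 + √η' * ((1 + 1 / K) * L)) + C2) := s3
      _ = 2 * √L * N + N / A * 4 + N / A * (√η' * ((1 + 1 / K) * L)) + C2 := by ring
      _ ≤ L * (ε / 4 * N) + L * (ε / 4 * N) + L * ((√η / A + ε / 4) * N) + L * (ε / 4 * N) := by linarith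
      _ = _ := by ring
  exact le_of_mul_le_mul_left hfin hL0

end Pool.Agent.N805.CH
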