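import Pool.Agent.N805.CH.B2

/-! # Systems of linear forms: the reduction -/

set_option autoImplicit false

open Finset Filter Topology

namespace Pool.Agent.N805.CH

/-- Liouville's function, real valued -/
noncomputable def lam (n : ℕ) : ℝ := (-1) ^ ArithmeticFunction.cardFactors n

/-- the systems of linear forms of the conjecture: positive slopes, distinct intercepts, no two proportional -/
def Adm {ι : Type} (a b : ι → ℕ) : Prop :=
  (∀ i, 0 < a i) ∧ Function.Injective b ∧ ∀ i j, i ≠ j → a i * b j ≠ a j * b i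

/-- the correlation sum -/
noncomputable def Cr {ι : Type} [Fintype ι] (a b : ι → ℕ) (N : ℕ) : ℝ :=
  ∑ n ∈ Ioc 0 N, ∏ i, lam (a i * n + b i)

lemma lam_abs (n : ℕ) : |lam n| = 1 := by unfold lam; simp

lemma lam_mul {m n : ℕ} (hm : m ≠ 0) (hn : n ≠ 0) : lam (m * n) = lam m * lam n := by
  unfold lam; rw [ArithmeticFunction.cardFactors_mul hm hn, pow_add]

lemma lam_prime {p : ℕ} (hp : p.Prime) : lam p = -1 := by
  unfold lam; rw [ArithmeticFunction.cardFactors_apply_prime hp, pow_one]

lemma lam_sq (n : ℕ) : lam n * lam n = 1 := by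
  unfold lam; rw [← pow_add, ← two_mul, pow_mul]; norm_num

lemma prod_abs {ι : Type} [Fintype ι] (x : ι → ℕ) : |∏ i, lam (x i)| = 1 := by
  rw [Finset.abs_prod]
  exact Finset.prod_eq_one fun i _ => lam_abs _

/-- reindexing -/
lemma Cr_equiv {ι κ : Type} [Fintype ι] [Fintype κ] (e : κ ≃ ι) (a b : ι → ℕ) (N : ℕ) :
    Cr (a ∘ e) (b ∘ e) N = Cr a b N := by
  unfold Cr
  refine Finset.sum_congr rfl fun n _ => ?_
  exact Equiv.prod_comp e fun i => lam (a i * n + b i)

lemma Adm_equiv {ι κ : Type} (e : κ ≃ ι) {a b : ι → ℕ} (h : Adm a b) : Adm (a ∘ e) (b ∘ e) :=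
  ⟨fun i => h.1 _, h.2.1.comp e.injective, fun i j hij => h.2.2 _ _ fun he => hij (e.injective he)⟩

/-- summing over a class -/
lemma sum_class {A s M : ℕ} (hA : 1 ≤ A) {F : ℕ → ℝ}
    (hF : ∀ m, s < m → F m ≠ 0 → m % A = s % A) :
    ∑ m ∈ Ioc s M, F m = ∑ t ∈ Ioc 0 ((M - s) / A), F (A * t + s) := by
  classical
  have hinj : Set.InjOn (fun t => A * t + s) (Ioc 0 ((M - s) / A) : Finset ℕ) := by
    intro x _ y _ h
    simp only at h
    have h1 : A * x = A * y := by omega
    exact Nat.eq_of_mul_eq_mul_left hA h1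
  rw [← Finset.sum_image (f := F) (g := fun t => A * t + s) hinj]
  symm
  apply Finset.sum_subset
  · intro m hm
    rw [Finset.mem_image] at hm
    obtain ⟨t, ht, rfl⟩ := hm
    rw [Finset.mem_Ioc] at ht ⊢
    have h1 : A * t ≤ M - s := by
      calc A * t ≤ A * ((M - s) / A) := Nat.mul_le_mul_left _ ht.2
        _ ≤ M - s := Nat.mul_div_le _ _
    have h2 : 1 ≤ A * t := Nat.mul_pos hA ht.1
    omega
  · intro m hm hm'
    rw [Finset.mem_Ioc] at hm
    by_contra h
    apply hm'
    have h1 := hF m hm.1 h
    have h2 : A ∣ m - s := (Nat.modEq_iff_dvd' hm.1.le).1 (show s % A = m % A from h1.symm)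
    rw [Finset.mem_image]
    refine ⟨(m - s) / A, ?_, ?_⟩
    · rw [Finset.mem_Ioc]
      exact ⟨Nat.div_pos (Nat.le_of_dvd (by omega) h2) hA, Nat.div_le_div_right (by omega)⟩
    · rw [Nat.mul_div_cancel' h2]
      omega

lemma abs_Cr_le {ι : Type} [Fintype ι] (a b : ι → ℕ) (N : ℕ) : |Cr a b N| ≤ N := by
  unfold Cr
  refine (Finset.abs_sum_le_sum_abs _ _).trans ?_
  simp only [prod_abs]
  simp

/-- correlations in one class, through a system of twice the order -/
lemma corr_le {I : Type} [Fintype I] {A r : ℕ} (hA : 1 ≤ A) (a c : I → ℕ) (ha : ∀ i, 0 < a i)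
    (hc : ∀ i, 0 < c i) (hinj : ∀ i j, i ≠ j → a i = a j → c i ≠ c j)
    (hcr : ∀ i j, i ≠ j → a i * c j ≠ a j * c i) {η : ℝ} (hη : 0 ≤ η)
    (H : ∀ a' b' : I ⊕ I → ℕ, Adm a' b' → (∀ i j, a' (Sum.inl i) ≠ a' (Sum.inr j)) →
      ∀ ε : ℝ, 0 < ε → ∀ᶠ N : ℕ in atTop, Cr a' b' N ≤ (η + ε) * N)
    {g : ℕ → ℝ} (hg : g = fun x => if x % A = r % A ∧ r < x then ∏ i, lam (a i * x + c i) else 0)
    {p q : ℕ} (hp : p.Prime) (hq : q.Prime) (hpq : p ≠ q) (hpA : A < p) (hqA : A < q)
    (hpa : ∀ i j, a i * c j < p) (hqa : ∀ i j, a i * c j < q) (hmod : p % A = q % A) :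
    ∀ ε : ℝ, 0 < ε → ∀ᶠ M : ℕ in atTop, Co g p q M ≤ (η / A + ε) * M := by
  classical
  intro ε hε
  have hA0 : (0 : ℝ) < A := by exact_mod_cast hA
  have hgle : ∀ x, |g x| ≤ 1 := by
    intro x
    rw [hg]
    simp only
    split_ifs
    · rw [prod_abs]
    · simp
  by_cases hex : ∃ s0, (p * s0) % A = r % A
  · obtain ⟨s0, hs0⟩ := hex
    have hcopA : Nat.Coprime A p := by
      rw [Nat.coprime_comm, Nat.Prime.coprime_iff_not_dvd hp]
      intro hd
      have := Nat.le_of_dvd hA hd
      omega
    -- a large representative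
    obtain ⟨B, hB⟩ : ∃ B : ℕ, B = r + ∑ i, c i := ⟨_, rfl⟩
    have hBc : ∀ i, c i ≤ B := by
      intro i
      have := Finset.single_le_sum (f := c) (fun _ _ => Nat.zero_le _) (Finset.mem_univ i)
      omega
    obtain ⟨s, hs⟩ : ∃ s : ℕ, s = s0 + A * (B + 1) := ⟨_, rfl⟩
    have hsB : B < s := by
      rw [hs]
      nlinarith
    have hsmod : s % A = s0 % A := by rw [hs]; simp
    have hcls : ∀ m, g (p * m) ≠ 0 → m % A = s % A := by
      intro m hm
      rw [hg] at hm
      simp only at hm
      have h1 : (p * m) % A = r % A := by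
        by_contra h
        rw [if_neg (fun h' => h h'.1)] at hm
        exact hm rfl
      have h2 : p * m ≡ p * s0 [MOD A] := by
        show (p * m) % A = (p * s0) % A
        rw [h1, hs0]
      have h3 : m ≡ s0 [MOD A] := Nat.ModEq.cancel_left_of_coprime hcopA h2
      rw [hsmod]
      exact h3
    -- the derived system
    obtain ⟨a', ha'⟩ : ∃ a' : I ⊕ I → ℕ, a' = Sum.elim (fun i => a i * p * A) (fun i => a i * q * A) := ⟨_, rfl⟩
    obtain ⟨b', hb'⟩ : ∃ b' : I ⊕ I → ℕ, b' = Sum.elim (fun i => a i * p * s + c i) (fun i => a i * q * s + c i) :=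
      ⟨_, rfl⟩
    have hlt : ∀ x y u v : ℕ, x < y → u < s → 0 < v → x * s + u < y * s + v := by
      intro x y u v hxy hu hv
      have : (x + 1) * s ≤ y * s := Nat.mul_le_mul_right _ hxy
      rw [add_mul, one_mul] at this
      omega
    have hneI : ∀ x y i j, x ≠ y → x * s + c i ≠ y * s + c j := by
      intro x y i j hxy
      rcases lt_or_gt_of_ne hxy with h | h
      · exact (hlt x y (c i) (c j) h (lt_of_le_of_lt (hBc i) hsB) (hc j)).ne
      · exact (hlt y x (c j) (c i) h (lt_of_le_of_lt (hBc j) hsB) (hc i)).ne'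
    -- the two primes do not mix
    have hmix : ∀ u v : ℕ, 0 < v → v < p → u * p ≠ v * q := by
      intro u v hv0 hv he
      have h1 : p ∣ v * q := ⟨u, by rw [← he]; ring⟩
      rcases (Nat.Prime.dvd_mul hp).1 h1 with h2 | h2
      · exact absurd (Nat.le_of_dvd hv0 h2) (by omega)
      · exact hpq ((Nat.prime_dvd_prime_iff_eq hp hq).1 h2)
    have haip : ∀ i, a i < p := by
      intro i
      have h1 := hpa i i
      have h2 := hc i
      nlinarith
    have hadm : Adm a' b' := by
      refine ⟨?_, ?_, ?_⟩
      · intro i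
        rw [ha']
        rcases i with i | i
        · exact Nat.mul_pos (Nat.mul_pos (ha i) hp.pos) hA
        · exact Nat.mul_pos (Nat.mul_pos (ha i) hq.pos) hA
      · intro x y hxy
        rw [hb'] at hxy
        rcases x with i | i <;> rcases y with j | j
        · simp only [Sum.elim_inl] at hxy
          by_contra hne
          have hij : i ≠ j := fun h => hne (by rw [h])
          by_cases haa : a i = a j
          · rw [haa] at hxy
            exact hinj i j hij haa (by omega)
          · exact hneI (a i * p) (a j * p) i j (fun h => haa (Nat.eq_of_mul_eq_mul_right hp.pos h)) hxy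
        · simp only [Sum.elim_inl, Sum.elim_inr] at hxy
          exact absurd hxy (hneI _ _ i j (hmix (a i) (a j) (ha j) (haip j)))
        · simp only [Sum.elim_inl, Sum.elim_inr] at hxy
          exact absurd hxy (hneI _ _ i j (Ne.symm (hmix (a j) (a i) (ha i) (haip i))))
        · simp only [Sum.elim_inr] at hxy
          by_contra hne
          have hij : i ≠ j := fun h => hne (by rw [h])
          by_cases haa : a i = a j
          · rw [haa] at hxy
            exact hinj i j hij haa (by omega)
          · exact hneI (a i * q) (a j * q) i j (fun h => haa (Nat.eq_of_mul_eq_mul_right hq.pos h)) hxy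
      · intro x y hxy
        rw [ha', hb']
        rcases x with i | i <;> rcases y with j | j
        · simp only [Sum.elim_inl]
          have hij : i ≠ j := fun h => hxy (by rw [h])
          intro he
          apply hcr i j hij
          have h1 : (p * A) * (a i * c j) = (p * A) * (a j * c i) := by
            have e1 : a i * p * A * (a j * p * s + c j) = a i * p * A * (a j * p * s) + (p * A) * (a i * c j) := by ring
            have e2 : a j * p * A * (a i * p * s + c i) = a i * p * A * (a j * p * s) + (p * A) * (a j * c i) := by ring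
            rw [e1, e2] at he
            omega
          exact Nat.eq_of_mul_eq_mul_left (Nat.mul_pos hp.pos hA) h1
        · simp only [Sum.elim_inl, Sum.elim_inr]
          intro he
          have h1 : A * ((a i * c j) * p) = A * ((a j * c i) * q) := by
            have e1 : a i * p * A * (a j * q * s + c j) = a i * p * A * (a j * q * s) + A * ((a i * c j) * p) := by ring
            have e2 : a j * q * A * (a i * p * s + c i) = a i * p * A * (a j * q * s) + A * ((a j * c i) * q) := by ring
            rw [e1, e2] at he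
            omega
          exact hmix _ _ (Nat.mul_pos (ha j) (hc i)) (hpa j i) (Nat.eq_of_mul_eq_mul_left hA h1)
        · simp only [Sum.elim_inl, Sum.elim_inr]
          intro he
          have h1 : A * ((a j * c i) * p) = A * ((a i * c j) * q) := by
            have e1 : a i * q * A * (a j * p * s + c j) = a i * q * A * (a j * p * s) + A * ((a i * c j) * q) := by ring
            have e2 : a j * p * A * (a i * q * s + c i) = a i * q * A * (a j * p * s) + A * ((a j * c i) * p) := by ring
            rw [e1, e2] at he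
            omega
          exact hmix _ _ (Nat.mul_pos (ha i) (hc j)) (hpa i j) (Nat.eq_of_mul_eq_mul_left hA h1)
        · simp only [Sum.elim_inr]
          have hij : i ≠ j := fun h => hxy (by rw [h])
          intro he
          apply hcr i j hij
          have h1 : (q * A) * (a i * c j) = (q * A) * (a j * c i) := by
            have e1 : a i * q * A * (a j * q * s + c j) = a i * q * A * (a j * q * s) + (q * A) * (a i * c j) := by ring
            have e2 : a j * q * A * (a i * q * s + c i) = a i * q * A * (a j * q * s) + (q * A) * (a j * c i) := by ring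
            rw [e1, e2] at he
            omega
          exact Nat.eq_of_mul_eq_mul_left (Nat.mul_pos hq.pos hA) h1
    have hsep : ∀ i j, a' (Sum.inl i) ≠ a' (Sum.inr j) := by
      intro i j he
      rw [ha'] at he
      simp only [Sum.elim_inl, Sum.elim_inr] at he
      exact hmix (a i) (a j) (ha j) (haip j) (Nat.eq_of_mul_eq_mul_right hA he)
    have hHN := H a' b' hadm hsep (ε * A / 2) (by positivity)
    rw [eventually_atTop] at hHN
    obtain ⟨N1, hN1⟩ := hHN
    obtain ⟨N2, hN2⟩ := exists_nat_ge (2 * (s : ℝ) / ε)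
    filter_upwards [eventually_ge_atTop (max (A * N1 + s) N2)] with M hM
    have hM1 : A * N1 + s ≤ M := (le_max_left _ _).trans hM
    have hsM : s ≤ M := by
      have : 0 ≤ A * N1 := Nat.zero_le _
      omega
    have hM2 : (s : ℝ) ≤ ε / 2 * M := by
      have h1 : 2 * (s : ℝ) / ε ≤ M := hN2.trans (by exact_mod_cast (le_max_right _ _).trans hM)
      rw [div_le_iff₀ hε] at h1
      linarith
    have hT : N1 ≤ (M - s) / A := by
      rw [Nat.le_div_iff_mul_le hA]
      rw [mul_comm]
      omega
    -- split
    have e0 : Co g p q M = ∑ m ∈ Ioc 0 s, g (p * m) * g (q * m) + ∑ m ∈ Ioc s M, g (p * m) * g (q * m) := by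
      unfold Co
      rw [Finset.sum_Ioc_consecutive _ (Nat.zero_le s) hsM]
    have e1 : ∑ m ∈ Ioc 0 s, g (p * m) * g (q * m) ≤ s := by
      calc ∑ m ∈ Ioc 0 s, g (p * m) * g (q * m) ≤ ∑ m ∈ Ioc 0 s, (1 : ℝ) := by
            refine Finset.sum_le_sum fun m _ => ?_
            refine (le_abs_self _).trans ?_
            rw [abs_mul]
            calc |g (p * m)| * |g (q * m)| ≤ 1 * 1 := mul_le_mul (hgle _) (hgle _) (abs_nonneg _) zero_le_one
              _ = 1 := by ring
        _ = _ := by simp
    have e2 : ∑ m ∈ Ioc s M, g (p * m) * g (q * m) = Cr a' b' ((M - s) / A) := by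
      rw [sum_class (F := fun m => g (p * m) * g (q * m)) hA
        (fun m _ hm => hcls m (fun h => hm (by rw [h, zero_mul])))]
      unfold Cr
      refine Finset.sum_congr rfl fun t ht => ?_
      rw [Finset.mem_Ioc] at ht
      rw [Fintype.prod_sum_type, hg, ha', hb']
      simp only [Sum.elim_inl, Sum.elim_inr]
      have hbig : r < A * t + s := by
        have h1 := hsB
        rw [hB] at h1
        omega
      have hmm : (A * t + s) % A = s % A := by simp
      have h1 : (p * (A * t + s)) % A = r % A := by
        rw [← hs0, Nat.mul_mod, hmm, hsmod, ← Nat.mul_mod]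
      have h2 : (q * (A * t + s)) % A = r % A := by
        rw [Nat.mul_mod, ← hmod, ← Nat.mul_mod, h1]
      have h3 : r < p * (A * t + s) := lt_of_lt_of_le hbig (Nat.le_mul_of_pos_left _ hp.pos)
      have h4 : r < q * (A * t + s) := lt_of_lt_of_le hbig (Nat.le_mul_of_pos_left _ hq.pos)
      rw [if_pos ⟨h1, h3⟩, if_pos ⟨h2, h4⟩]
      congr 1
      · refine Finset.prod_congr rfl fun i _ => ?_
        congr 1
        ring
      · refine Finset.prod_congr rfl fun i _ => ?_
        congr 1
        ring
    have e3 := hN1 _ hT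
    have e4 : (((M - s) / A : ℕ) : ℝ) ≤ M / A := by
      refine Nat.cast_div_le.trans ?_
      refine div_le_div_of_nonneg_right ?_ hA0.le
      exact_mod_cast Nat.sub_le M s
    have e5 : (η + ε * A / 2) * (((M - s) / A : ℕ) : ℝ) ≤ (η + ε * A / 2) * (M / A) :=
      mul_le_mul_of_nonneg_left e4 (by positivity)
    have e6 : (η + ε * A / 2) * ((M : ℝ) / A) = (η / A + ε / 2) * M := by
      field_simp
    rw [e0, e2]
    linarith
  · -- no term
    push Not at hex
    have h0 : ∀ m, g (p * m) = 0 := by
      intro m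
      rw [hg]
      simp only
      rw [if_neg (fun h => hex m h.1)]
    filter_upwards with M
    have h1 : Co g p q M = 0 := by
      unfold Co
      refine Finset.sum_eq_zero fun m _ => ?_
      rw [h0, zero_mul]
    rw [h1]
    positivity

end Pool.Agent.N805.CH
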